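import Pool.Agent.R267.Lucc

set_option autoImplicit false

open Filter Topology
open scoped ENNReal

namespace Pool.Agent.Results.MP_ee84c2_an.LuccNotSucc

section defs

variable {𝕜 : Type} [RCLike 𝕜] {X : Type} [NormedAddCommGroup X] [NormedSpace 𝕜 X]

/-- `(x n)` is a basis with coordinate functionals `xs n` (no Schauder condition) -/
def IsBasis (x : ℕ → X) (xs : ℕ → X →L[𝕜] 𝕜) : Prop :=
  (∀ f : X, f ∈ closure ((Submodule.span 𝕜 (Set.range x) : Submodule 𝕜 X) : Set X)) ∧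
  (∀ k n : ℕ, xs k (x n) = if k = n then 1 else 0)

/-- semi-normalized and `M`-bounded, with total functionals -/
def SemiNormalizedMBounded (x : ℕ → X) (xs : ℕ → X →L[𝕜] 𝕜) : Prop :=
  (∃ a b : ℝ, 0 < a ∧ ∀ n, a ≤ ‖x n‖ ∧ ‖x n‖ ≤ b) ∧ (∃ M : ℝ, ∀ n, ‖x n‖ * ‖xs n‖ ≤ M) ∧
  (∀ f : X, (∀ n, xs n f = 0) → f = 0)

variable (𝕜)

/-- suppression unconditional for constant coefficients -/
def SUCC (x : ℕ → X) : Prop :=
  ∃ C : ℝ, 1 ≤ C ∧ ∀ A B : Finset ℕ, B ⊆ A → ∀ ε : ℕ → 𝕜, (∀ n ∈ A, ‖ε n‖ = 1) →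
    ‖∑ n ∈ B, ε n • x n‖ ≤ C * ‖∑ n ∈ A, ε n • x n‖

/-- lower unconditional for constant coefficients -/
def LUCC (x : ℕ → X) : Prop :=
  ∃ C : ℝ, 1 ≤ C ∧ ∀ (A : Finset ℕ) (ε : ℕ → 𝕜), (∀ n ∈ A, ‖ε n‖ = 1) →
    ∀ a : ℕ → ℝ, (∀ n ∈ A, 1 ≤ a n) →
      ‖∑ n ∈ A, ε n • x n‖ ≤ C * ‖∑ n ∈ A, (ε n * (a n : 𝕜)) • x n‖

end defs

open Pool.Agent.R267 Pool.Agent.R267.LU

/-- For both scalar fields there are a Banach space and a semi-normalized `M`-bounded total basis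
of it that is LUCC but not SUCC. -/
theorem result : ∀ (𝕜 : Type) [RCLike 𝕜],
    ∃ (X : Type) (_ : NormedAddCommGroup X) (_ : NormedSpace 𝕜 X) (_ : CompleteSpace X)
      (x : ℕ → X) (xs : ℕ → X →L[𝕜] 𝕜),
      IsBasis x xs ∧ SemiNormalizedMBounded x xs ∧ LUCC 𝕜 x ∧ ¬ SUCC 𝕜 x := by
  intro 𝕜 _
  have hc : ∀ c, CompleteSpace (VV 𝕜 c) := fun c => FiniteDimensional.complete 𝕜 _
  refine ⟨XX 𝕜, inferInstance, inferInstance, inferInstance, bx 𝕜,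
    fun n => (bf 𝕜 n).mkContinuous 1 (norm_bf_le n), ⟨dense_bx, fun k n => bf_bx k n⟩,
    ⟨⟨1, 2, one_pos, fun n => ⟨one_le_norm_bx n, norm_bx_le n⟩⟩, ⟨2 * 1, fun n => ?_⟩, ?_⟩, ?_, ?_⟩
  · exact mul_le_mul (norm_bx_le n) (LinearMap.mkContinuous_norm_le _ (by norm_num) _)
      (norm_nonneg _) (by norm_num)
  · intro f hf
    apply BS.ext_fnl 1 (TT 𝕜)
    intro i
    have := hf (en.symm i)
    change bf 𝕜 (en.symm i) f = 0 at this
    unfold bf at this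
    rw [Equiv.apply_symm_apply] at this
    rw [this, map_zero]
  · refine ⟨1, le_refl _, fun A ε hε a ha => ?_⟩
    rw [one_mul]
    exact lucc A ε hε a ha
  · rintro ⟨C, hC1, hC⟩
    obtain ⟨c, hcC⟩ := exists_nat_gt (2 * C)
    have h1 := hC (part c (fun _ => True)) (part c (fun k => (k : ℕ) < c + 1))
      (part_mono c _ _ (fun _ _ => trivial)) (fun _ => 1) (fun _ _ => norm_one)
    have h2 := norm_full (𝕜 := 𝕜) c
    have h3 := norm_half (𝕜 := 𝕜) c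
    have h4 : ((c : ℝ) + 1) / 2 ≤ C * 1 :=
      h3.trans (h1.trans (mul_le_mul_of_nonneg_left h2 (by linarith)))
    linarith

end Pool.Agent.Results.MP_ee84c2_an.LuccNotSucc
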